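import Pool.Agent.Y208.BH.Stm

/-! # The action of the extension on vectors (BH-ACT) -/

set_option autoImplicit false

namespace Pool.Agent.Y537.BH

open Y208.BH

theorem mv_eq {Λ S : Type} [Group Λ] [MulAction Λ S] (g : Λ) (a : S ⊕ Fin 4) :
    mv g a = (Equiv.sumCongr (MulAction.toPerm g) (Equiv.refl (Fin 4))) a := by
  cases a <;> rfl

theorem pmv_add {Λ S V : Type} [Group Λ] [MulAction Λ S] [AddCommGroup V] (g : Λ)
    (w w' : S ⊕ Fin 4 →₀ V) : pmv V g (w + w') = pmv V g w + pmv V g w' :=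
  map_add (Finsupp.domCongr (M := V)
    (Equiv.sumCongr (MulAction.toPerm g) (Equiv.refl (Fin 4)))) w w'

theorem pmv_single {Λ S V : Type} [Group Λ] [MulAction Λ S] [AddCommGroup V] (g : Λ)
    (a : S ⊕ Fin 4) (v : V) : pmv V g (Finsupp.single a v) = Finsupp.single (mv g a) v := by
  rw [mv_eq]
  exact Finsupp.equivMapDomain_single _ _ _

theorem pmv_apply {Λ S V : Type} [Group Λ] [MulAction Λ S] [AddCommGroup V] (g : Λ)
    (w : S ⊕ Fin 4 →₀ V) (a : S ⊕ Fin 4) : pmv V g w (mv g a) = w a := by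
  have h : pmv V g w (mv g a) = w ((Equiv.sumCongr (MulAction.toPerm g)
      (Equiv.refl (Fin 4))).symm (mv g a)) := rfl
  rw [h, mv_eq, Equiv.symm_apply_apply]

theorem mv_inj {Λ S : Type} [Group Λ] [MulAction Λ S] (g : Λ) :
    Function.Injective (mv g : S ⊕ Fin 4 → S ⊕ Fin 4) := by
  intro a b h
  rw [mv_eq, mv_eq] at h
  exact (Equiv.injective _) h

theorem t_ACT : S_ACT := by
  intro Λ S R V Q _ _ _ _ _ _ i x hx
  refine hx.univ _ (pmv V) (fun a b r => el a b r) (st_el R V _) ?_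
  intro g a b r hab
  rw [mul_inv_eq_iff_eq_mul]
  apply Equiv.ext
  intro w
  have hne : mv g a ≠ mv g b := fun h => hab (mv_inj g h)
  rw [Equiv.Perm.mul_apply, Equiv.Perm.mul_apply, el_apply hab, el_apply hne, pmv_add,
    pmv_single, pmv_apply]

end Pool.Agent.Y537.BH
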